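import Pool.Agent.H72.EM.Basic

/-!
# Board emc_modules: coordinates of the chords and of the cycle (for the rows D1 and D2)
-/

set_option autoImplicit false

open Finset Pool.Agent.H72.EM

namespace Pool.Agent.H58.EMC

section
variable {κ m : ℕ}

theorem natc (c : Ix κ → Ix κ → ℕ) (i j : Ix κ) : nat c i.val j.val = c i j := by
  unfold nat
  rw [dif_pos ⟨i.2, j.2⟩]

/-- the second coordinate of a block -/
def pb : Bk κ → ℕ
  | (_, none) => 0
  | (_, some j) => j.val + 1

/-- the number of a slot -/
def sb : Option Sl → ℕ
  | none => 0
  | some s => nS s

theorem cp_eq (v : Vt κ m) : cp v = pb v.1 := by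
  obtain ⟨⟨i, o⟩, s⟩ := v
  cases o <;> rfl

theorem pb_inj {b b' : Bk κ} (h1 : b.1.val = b'.1.val) (h2 : pb b = pb b') : b = b' := by
  obtain ⟨i, o⟩ := b
  obtain ⟨i', o'⟩ := b'
  have hi : i = i' := Fin.ext h1
  subst hi
  cases o with
  | none =>
    cases o' with
    | none => rfl
    | some j' => exact absurd h2 (by simp [pb])
  | some j =>
    cases o' with
    | none => exact absurd h2 (by simp [pb])
    | some j' =>
      have hj : j = j' := Fin.ext (by simpa [pb] using h2)
      rw [hj]

theorem sb_inj {s s' : Option Sl} (h : sb s = sb s') : s = s' := by
  revert s s'
  decide

theorem nP_inj {q q' : PV m} (h : nP q = nP q') : q = q' := by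
  cases q <;> cases q' <;> simp only [nP] at h <;>
    first
    | rfl
    | (exfalso; omega)
    | (exfalso; rename_i j; have := j.2; omega)
    | (congr 1; apply Fin.ext; omega)
    | (exfalso; rename_i j j'; have := j.2; have := j'.2; omega)

/-- a vertex is determined by its coordinates -/
theorem coord_inj {v w : Vt κ m} (h1 : ci v = ci w) (h2 : cp v = cp w) (h3 : cs v = cs w)
    (h4 : cr v = cr w) : v = w := by
  have hb : v.1 = w.1 := pb_inj h1 (by rw [← cp_eq, ← cp_eq]; exact h2)
  obtain ⟨b, s⟩ := v
  obtain ⟨b', s'⟩ := w
  dsimp only at hb
  subst hb
  cases s with
  | none =>
    cases s' with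
    | none => rfl
    | some x =>
      obtain ⟨s', q'⟩ := x
      exfalso
      simp only [cs] at h3
      cases s' <;> simp [nS] at h3
  | some x =>
    obtain ⟨s, q⟩ := x
    cases s' with
    | none =>
      exfalso
      simp only [cs] at h3
      cases s <;> simp [nS] at h3
    | some x' =>
      obtain ⟨s', q'⟩ := x'
      have e1 : some s = some s' := sb_inj h3
      have e2 : q = q' := nP_inj h4
      rw [Option.some.inj e1, e2]

/-- the next block -/
theorem aN_nxB (b : Bk κ) : aN (2 * κ + 2) b.1.val (pb b) (nxB b).1.val (pb (nxB b)) := by
  obtain ⟨i, o⟩ := b
  cases o with
  | none =>
    rw [nxB_none]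
    left
    exact ⟨rfl, rfl⟩
  | some j =>
    rw [nxB_some]
    split_ifs with h
    · have h1 := up_val i
      right
      by_cases h2 : i.val = 2 * κ + 1
      · right
        rw [if_pos h2] at h1
        exact ⟨by simp only [pb]; omega, rfl, by show i.val + 1 = _; omega, h1⟩
      · left
        rw [if_neg h2] at h1
        exact ⟨by simp only [pb]; omega, rfl, h1⟩
    · left
      have h1 := up_val j
      rw [if_neg h] at h1
      exact ⟨rfl, by simp only [pb]; omega⟩

/-- chords in coordinates -/
def aCh (c : Ix κ → Ix κ → ℕ) (h h' : Hs κ) : Prop :=
  aC (2 * κ + 2) (nat c) h.1.1.val (pb h.1) (sb h.2) h'.1.1.val (pb h'.1) (sb h'.2)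

theorem chord {c : Ix κ → Ix κ → ℕ} (hc : Sy c) (h : Hs κ) :
    aCh c h (sg c h) ∨ aCh c (sg c h) h ∨
      ∃ i j, h = ((i, some j), none) ∧ sg c h = ((j, some i), none) ∧ c i j = 2 := by
  obtain ⟨⟨i, o⟩, s⟩ := h
  have hi := i.2
  have hl : (lst : Ix κ).val = 2 * κ + 1 := rfl
  have hz : (zr : Ix κ).val = 0 := rfl
  have hz0 : ((0 : Ix κ)).val = 0 := rfl
  cases o with
  | none =>
    cases s with
    | none =>
      left
      simp [aCh, aC, sg, pb, sb, nS]
    | some s =>
      cases s with
      | ax =>
        have h1 := tw_val i
        by_cases h2 : i.val < κ + 1
        · rw [if_pos h2] at h1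
          left
          simp only [aCh, aC, sg, pb, sb, nS]
          simp
          omega
        · rw [if_neg h2] at h1
          right; left
          simp only [aCh, aC, sg, pb, sb, nS]
          simp
          omega
      | ay =>
        right; left
        have h1 := aN_nxB (pvB (i, none) : Bk κ)
        rw [nxB_pvB] at h1
        simp only [aCh, aC, sg, sb, nS]
        simp
        exact h1
      | az =>
        left
        simp only [aCh, aC, sg]
        split_ifs with h2
        · simp [pb, sb, nS]
          omega
        · simp [pb, sb, nS]
          omega
      | bv =>
        right; left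
        simp [aCh, aC, sg, pb, sb, nS]
      | bx =>
        by_cases h1 : i.val = 0
        · right; left
          have e : sg c ((i, none), some .bx) = ((i, none), some .az) := by
            simp only [sg]; rw [if_pos h1]
          rw [e]
          simp [aCh, aC, pb, sb, nS]
          omega
        · by_cases h2 : i.val = 2 * κ + 1
          · right; left
            have e : sg c ((i, none), some .bx) = ((zr, some zr), some .ax) := by
              simp only [sg]; rw [if_neg h1, if_pos h2]
            rw [e]
            simp [aCh, aC, pb, sb, nS]
            omega
          · by_cases h3 : i.val ≤ κ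
            · left
              have e : sg c ((i, none), some .bx) = ((⟨i.val + κ, by omega⟩, none), some .bx) := by
                simp only [sg]; rw [if_neg h1, if_neg h2, dif_pos h3]
              rw [e]
              simp [aCh, aC, pb, sb, nS]
              omega
            · right; left
              have e : sg c ((i, none), some .bx) = ((⟨i.val - κ, by omega⟩, none), some .bx) := by
                simp only [sg]; rw [if_neg h1, if_neg h2, dif_neg h3]
              rw [e]
              simp [aCh, aC, pb, sb, nS]
              omega
      | by' =>
        by_cases h1 : i.val = 0
        · left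
          have e : sg c ((i, none), some .by') = ((lst, some lst), some .bx) := by
            simp only [sg]; rw [if_pos h1]
          rw [e]
          simp [aCh, aC, pb, sb, nS]
          omega
        · right; left
          have e : sg c ((i, none), some .by') = ((i, none), some .az) := by
            simp only [sg]; rw [if_neg h1]
          rw [e]
          simp [aCh, aC, pb, sb, nS]
          omega
      | bz =>
        left
        have h1 := aN_nxB ((i, none) : Bk κ)
        simp only [aCh, aC, sg, sb, nS]
        simp
        exact h1
  | some j =>
    have hj := j.2
    cases s with
    | none =>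
      by_cases h0 : c i j = 0
      · left
        have e : sg c ((i, some j), none) = ((j, some i), some .bv) := by
          simp only [sg]; rw [if_pos h0]
        rw [e]
        have h1 := natc c i j
        simp [aCh, aC, pb, sb, nS, h1, h0]
      · have e : sg c ((i, some j), none) = ((j, some i), none) := by
          simp only [sg]; rw [if_neg h0]
        by_cases h2 : c i j = 2
        · right; right
          exact ⟨i, j, rfl, e, h2⟩
        · left
          rw [e]
          have h1 := natc c i j
          simp [aCh, aC, pb, sb, h1, h0, h2]
    | some s =>
      cases s with
      | ax =>
        left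
        by_cases h1 : j.val < i.val
        · have e : sg c ((i, some j), some .ax) = ((i, some j), some .bx) := by
            simp only [sg]; rw [if_pos h1]
          rw [e]
          simp [aCh, aC, pb, sb, nS]
          omega
        · by_cases h2 : i.val < j.val
          · have e : sg c ((i, some j), some .ax) = ((i, some (dn j)), some .bx) := by
              simp only [sg]; rw [if_neg h1, if_pos h2]
            have h3 := dn_val j
            rw [if_neg (by omega)] at h3
            rw [e]
            simp [aCh, aC, pb, sb, nS]
            omega
          · by_cases h4 : i.val = 0
            · have e : sg c ((i, some j), some .ax) = ((lst, none), some .bx) := by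
                simp only [sg]; rw [if_neg h1, if_neg h2, if_pos h4]
              rw [e]
              simp [aCh, aC, pb, sb, nS]
              omega
            · have e : sg c ((i, some j), some .ax) = ((dn i, some lst), some .bx) := by
                simp only [sg]; rw [if_neg h1, if_neg h2, if_neg h4]
              have h3 := dn_val i
              rw [if_neg h4] at h3
              rw [e]
              simp [aCh, aC, pb, sb, nS]
              omega
      | ay =>
        right; left
        have h1 := aN_nxB (pvB (i, some j) : Bk κ)
        rw [nxB_pvB] at h1
        simp only [aCh, aC, sg, sb, nS]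
        simp
        exact h1
      | az =>
        left
        simp [aCh, aC, sg, pb, sb, nS]
      | bv =>
        by_cases h0 : c i j = 0
        · right; left
          have e : sg c ((i, some j), some .bv) = ((j, some i), none) := by
            simp only [sg]; rw [if_pos h0]
          rw [e]
          have h1 := natc c j i
          rw [← hc.symm i j, h0] at h1
          simp [aCh, aC, pb, sb, nS, h1]
        · left
          have e : sg c ((i, some j), some .bv) = ((j, some i), some .bv) := by
            simp only [sg]; rw [if_neg h0]
          rw [e]
          have h1 := natc c i j
          simp [aCh, aC, pb, sb, nS, h1, h0]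
      | bx =>
        right; left
        by_cases h1 : j.val < i.val
        · have e : sg c ((i, some j), some .bx) = ((i, some j), some .ax) := by
            simp only [sg]; rw [if_pos h1]
          rw [e]
          simp [aCh, aC, pb, sb, nS]
          omega
        · by_cases h2 : j.val < 2 * κ + 1
          · have e : sg c ((i, some j), some .bx) = ((i, some (up j)), some .ax) := by
              simp only [sg]; rw [if_neg h1, if_pos h2]
            have h3 := up_val j
            rw [if_neg (by omega)] at h3
            rw [e]
            simp [aCh, aC, pb, sb, nS]
            omega
          · by_cases h4 : i.val < 2 * κ + 1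
            · have e : sg c ((i, some j), some .bx) = ((up i, some (up i)), some .ax) := by
                simp only [sg]; rw [if_neg h1, if_neg h2, if_pos h4]
              have h3 := up_val i
              rw [if_neg (by omega)] at h3
              rw [e]
              simp [aCh, aC, pb, sb, nS]
              omega
            · have e : sg c ((i, some j), some .bx) = ((zr, none), some .by') := by
                simp only [sg]; rw [if_neg h1, if_neg h2, if_neg h4]
              rw [e]
              simp [aCh, aC, pb, sb, nS]
              omega
      | by' =>
        right; left
        simp [aCh, aC, sg, pb, sb, nS]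
      | bz =>
        left
        have h1 := aN_nxB ((i, some j) : Bk κ)
        simp only [aCh, aC, sg, sb, nS]
        simp
        exact h1

end

end Pool.Agent.H58.EMC
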