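import Pool.Agent.H58.EMC.D0

/-!
# Row D1 of the board emc_modules: every dart gives an arc
-/

set_option autoImplicit false

open Finset Pool.Agent.H72.EM

namespace Pool.Agent.H58.EMC

section
variable {κ m : ℕ}

theorem f3 : ∀ a : Fin 3, a = 0 ∨ a = 1 ∨ a = 2 := by decide

theorem lft_ci (h : Hs κ) (l : Fin 3) : ci (lft (h, l) : Dt (Vt κ m)).1 = h.1.1.val := by
  obtain ⟨b, s⟩ := h
  cases s <;> rfl

theorem lft_cp (h : Hs κ) (l : Fin 3) : cp (lft (h, l) : Dt (Vt κ m)).1 = pb h.1 := by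
  obtain ⟨b, s⟩ := h
  cases s <;> exact cp_eq _

theorem lft_cs (h : Hs κ) (l : Fin 3) : cs (lft (h, l) : Dt (Vt κ m)).1 = sb h.2 := by
  obtain ⟨b, s⟩ := h
  cases s <;> rfl

theorem lft_cr_none (b : Bk κ) (l : Fin 3) : cr (lft ((b, none), l) : Dt (Vt κ m)).1 = 0 := rfl

theorem lft_cr_some (b : Bk κ) (s : Sl) (l : Fin 3) :
    cr (lft ((b, some s), l) : Dt (Vt κ m)).1 = l.val := by
  show nP (lgv l) = l.val
  fin_cases l <;> rfl

theorem lft_cr_zero (h : Hs κ) : cr (lft (h, 0) : Dt (Vt κ m)).1 = 0 := by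
  obtain ⟨b, s⟩ := h
  cases s
  · rfl
  · exact lft_cr_some b _ 0

/-- red arcs between vertices -/
def AR (c : Ix κ → Ix κ → ℕ) (v w : Vt κ m) : Prop :=
  aR (m + 1) (nat c) (ci v) (cp v) (cs v) (cr v) (ci w) (cp w) (cs w) (cr w)

/-- blue arcs between vertices -/
def AB (c : Ix κ → Ix κ → ℕ) (v w : Vt κ m) : Prop :=
  aB (2 * κ + 2) (m + 1) (nat c) (ci v) (cp v) (cs v) (cr v) (ci w) (cp w) (cs w) (cr w)

theorem nextArc (c : Ix κ → Ix κ → ℕ) (h : Hs κ) :
    AB c (lft (h, 2) : Dt (Vt κ m)).1 (lft (nx h, 1) : Dt (Vt κ m)).1 := by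
  unfold AB
  rw [lft_ci, lft_cp, lft_cs, lft_ci, lft_cp, lft_cs]
  obtain ⟨b, s⟩ := h
  cases s with
  | none =>
    left
    exact ⟨rfl, rfl, rfl, rfl, rfl, rfl⟩
  | some s =>
    cases s
    case bz =>
      right; right; left
      exact ⟨rfl, rfl, rfl, rfl, aN_nxB b⟩
    all_goals
      right; left
      refine ⟨rfl, rfl, rfl, rfl, ?_, rfl⟩
      simp [sb, nS]

theorem chordArc {c : Ix κ → Ix κ → ℕ} {h h' : Hs κ} (hch : aCh c h h') :
    AB c (lft (h, 0) : Dt (Vt κ m)).1 (lft (h', 0) : Dt (Vt κ m)).1 := by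
  unfold AB
  rw [lft_ci, lft_cp, lft_cs, lft_ci, lft_cp, lft_cs, lft_cr_zero, lft_cr_zero]
  right; right; right; left
  exact ⟨rfl, rfl, hch⟩

/-- the darts which leave a host vertex -/
theorem outer {c : Ix κ → Ix κ → ℕ} (hc : Sy c) (h : Hs κ) (l : Fin 3)
    (hred : l = 0 → ¬ ∃ i j, h = ((i, some j), none) ∧ c i j = 2) :
    AB c (lft (h, l) : Dt (Vt κ m)).1 (lft (ht c (h, l)) : Dt (Vt κ m)).1 ∨
      AB c (lft (ht c (h, l)) : Dt (Vt κ m)).1 (lft (h, l) : Dt (Vt κ m)).1 := by
  rcases f3 l with rfl | rfl | rfl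
  · rcases chord hc h with h1 | h1 | ⟨i, j, h1, -, h2⟩
    · exact Or.inl (chordArc h1)
    · exact Or.inr (chordArc h1)
    · exact absurd ⟨i, j, h1, h2⟩ (hred rfl)
  · right
    have h1 := nextArc (m := m) c (pv h)
    rw [nx_pv] at h1
    exact h1
  · left
    exact nextArc c h

theorem I1 {M p s r r' : ℕ} (h : r = 0) (h' : r' = 1) : aI M p s r r' := Or.inl ⟨h, h'⟩
theorem I2 {M p s r r' : ℕ} (h : r = 1) (h' : r' = 3) : aI M p s r r' := Or.inr (Or.inl ⟨h, h'⟩)
theorem I3 {M p s r r' : ℕ} (h : r = 2) (h' : r' = 3) : aI M p s r r' :=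
  Or.inr (Or.inr (Or.inl ⟨h, h'⟩))
theorem I4 {M p s r r' : ℕ} (h : r = 3) (h' : r' = 4) : aI M p s r r' :=
  Or.inr (Or.inr (Or.inr (Or.inl ⟨h, h'⟩)))
theorem I5 {M p s r r' : ℕ} (h : r = 4) (h' : r' = 5) : aI M p s r r' :=
  Or.inr (Or.inr (Or.inr (Or.inr (Or.inl ⟨h, h'⟩))))
theorem I6 {M p s r r' : ℕ} (hk : p = 0 ∧ s = 1) (h : r = 0) (h' : r' = M + 4) : aI M p s r r' :=
  Or.inr (Or.inr (Or.inr (Or.inr (Or.inr (Or.inl ⟨hk.1, hk.2, h, h'⟩)))))
theorem I7 {M p s r r' : ℕ} (hk : p = 0 ∧ s = 1) (h : r = 2) (h' : r' = 2 * M + 4) :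
    aI M p s r r' :=
  Or.inr (Or.inr (Or.inr (Or.inr (Or.inr (Or.inr (Or.inl ⟨hk.1, hk.2, h, h'⟩))))))
theorem I8 {M p s r r' : ℕ} (hk : 1 ≤ p ∨ 2 ≤ s) (h : r = 0) (h' : r' = 2 * M + 4) :
    aI M p s r r' :=
  Or.inr (Or.inr (Or.inr (Or.inr (Or.inr (Or.inr (Or.inr (Or.inl ⟨hk, h, h'⟩)))))))
theorem I9 {M p s r r' : ℕ} (hk : 1 ≤ p ∨ 2 ≤ s) (h : r = 2) (h' : r' = M + 4) :
    aI M p s r r' :=
  Or.inr (Or.inr (Or.inr (Or.inr (Or.inr (Or.inr (Or.inr (Or.inr (Or.inl ⟨hk, h, h'⟩))))))))
theorem I10 {M p s r r' : ℕ} (h : 5 + M ≤ r) (h' : r' < 5 + M) (h'' : r + 1 = r' + M) :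
    aI M p s r r' :=
  Or.inr (Or.inr (Or.inr (Or.inr (Or.inr (Or.inr (Or.inr (Or.inr (Or.inr ⟨h, h', h''⟩))))))))
theorem R2 {M : ℕ} {c : ℕ → ℕ → ℕ} {i p s r r' : ℕ} (hs : 1 ≤ s) (h : r = 4) (h' : r' = 5 + M) :
    aR M c i p s r i p s r' := Or.inr (Or.inl ⟨hs, rfl, rfl, rfl, h, h'⟩)
theorem R3 {M : ℕ} {c : ℕ → ℕ → ℕ} {i p s r r' : ℕ} (hs : 1 ≤ s) (h1 : 5 ≤ r) (h2 : r < 5 + M)
    (h' : r' = r + M) : aR M c i p s r i p s r' := Or.inr (Or.inr (Or.inl ⟨hs, rfl, rfl, rfl, h1, h2, h'⟩))
theorem R4 {M : ℕ} {c : ℕ → ℕ → ℕ} {i p s r r' : ℕ} (hs : 1 ≤ s) (h1 : 5 ≤ r) (h2 : r + 1 < 5 + M)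
    (h' : r' = r + M + 1) : aR M c i p s r i p s r' :=
  Or.inr (Or.inr (Or.inr ⟨hs, rfl, rfl, rfl, h1, h2, h'⟩))

theorem nPx (j : Fin (m + 1)) : nP (PV.x j) = 5 + j.val := rfl
theorem nPy (j : Fin (m + 1)) : nP (PV.y j) = 5 + (m + 1) + j.val := rfl

/-- the darts inside a pole -/
theorem inner (k : Bool) (q : PV m) (a : Fin 3) (q' : PV m) (a' : Fin 3)
    (h : io k q a = .inl (q', a')) (c : ℕ → ℕ → ℕ) (i p s : ℕ) (hk : k = true ↔ p = 0 ∧ s = 1)
    (hs : 1 ≤ s) :
    (rd (q, a) = true → aR (m + 1) c i p s (nP q) i p s (nP q') ∨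
      aR (m + 1) c i p s (nP q') i p s (nP q)) ∧
    (rd (q, a) = false → aI (m + 1) p s (nP q) (nP q') ∨ aI (m + 1) p s (nP q') (nP q)) := by
  have hk' : k = false → 1 ≤ p ∨ 2 ≤ s := by
    intro hf
    by_contra hc
    have : k = true := hk.mpr (by omega)
    rw [hf] at this
    exact absurd this (by decide)
  cases q with
  | x j =>
    have hj := j.2
    rcases f3 a with rfl | rfl | rfl
    · -- port 0
      by_cases h0 : j.val = 0
      · have e : io k (PV.x j) 0 = .inl (.a, 1) := by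
          show (if h : j.val = 0 then _ else _) = _
          rw [dif_pos h0]
        replace h := e.symm.trans h
        simp only [Sum.inl.injEq, Prod.mk.injEq] at h
        obtain ⟨rfl, rfl⟩ := h
        refine ⟨fun hr => Bool.noConfusion hr, fun _ => Or.inr (I5 rfl ?_)⟩
        rw [nPx, h0]
      · have e : io k (PV.x j) 0 = .inl (.y ⟨j.val - 1, by omega⟩, 1) := by
          show (if h : j.val = 0 then _ else _) = _
          rw [dif_neg h0]
        replace h := e.symm.trans h
        simp only [Sum.inl.injEq, Prod.mk.injEq] at h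
        obtain ⟨rfl, rfl⟩ := h
        refine ⟨fun hr => Bool.noConfusion hr, fun _ => Or.inr (I10 ?_ ?_ ?_)⟩
        · rw [nPy]; omega
        · rw [nPx]; omega
        · rw [nPx, nPy]; dsimp only; omega
    · -- port 1
      by_cases h0 : j.val = m
      · have e : io k (PV.x j) 1 = .inl (if k then (.c1, 2) else (.z, 2)) := by
          show (if h : j.val = m then _ else _) = _
          rw [dif_pos h0]
        replace h := e.symm.trans h
        refine ⟨fun hr => ?_, fun _ => ?_⟩
        · have hr' : decide (j.val ≠ m) = true := hr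
          rw [decide_eq_true_iff] at hr'
          exact absurd h0 hr'
        · right
          cases k
          · simp only [Sum.inl.injEq, Bool.false_eq_true, if_false, Prod.mk.injEq] at h
            obtain ⟨rfl, rfl⟩ := h
            exact I9 (hk' rfl) rfl (by rw [nPx]; omega)
          · simp only [Sum.inl.injEq, if_true, Prod.mk.injEq] at h
            obtain ⟨rfl, rfl⟩ := h
            exact I6 (hk.mp rfl) rfl (by rw [nPx]; omega)
      · have e : io k (PV.x j) 1 = .inl (.y ⟨j.val + 1, by omega⟩, 0) := by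
          show (if h : j.val = m then _ else _) = _
          rw [dif_neg h0]
        replace h := e.symm.trans h
        simp only [Sum.inl.injEq, Prod.mk.injEq] at h
        obtain ⟨rfl, rfl⟩ := h
        refine ⟨fun _ => Or.inl (R4 hs ?_ ?_ ?_), fun hr => ?_⟩
        · rw [nPx]; omega
        · rw [nPx]; omega
        · rw [nPx, nPy]; dsimp only; omega
        · have hr' : decide (j.val ≠ m) = false := hr
          rw [decide_eq_false_iff_not] at hr'
          exact absurd h0 hr'
    · -- port 2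
      have e : io k (PV.x j) 2 = .inl (.y j, 2) := rfl
      replace h := e.symm.trans h
      simp only [Sum.inl.injEq, Prod.mk.injEq] at h
      obtain ⟨rfl, rfl⟩ := h
      refine ⟨fun _ => Or.inl (R3 hs ?_ ?_ ?_), fun hr => Bool.noConfusion hr⟩
      · rw [nPx]; omega
      · rw [nPx]; omega
      · rw [nPx, nPy]; omega
  | y j =>
    have hj := j.2
    rcases f3 a with rfl | rfl | rfl
    · by_cases h0 : j.val = 0
      · have e : io k (PV.y j) 0 = .inl (.a, 2) := by
          show (if h : j.val = 0 then _ else _) = _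
          rw [dif_pos h0]
        replace h := e.symm.trans h
        simp only [Sum.inl.injEq, Prod.mk.injEq] at h
        obtain ⟨rfl, rfl⟩ := h
        exact ⟨fun _ => Or.inr (R2 hs rfl (by rw [nPy]; omega)), fun hr => Bool.noConfusion hr⟩
      · have e : io k (PV.y j) 0 = .inl (.x ⟨j.val - 1, by omega⟩, 1) := by
          show (if h : j.val = 0 then _ else _) = _
          rw [dif_neg h0]
        replace h := e.symm.trans h
        simp only [Sum.inl.injEq, Prod.mk.injEq] at h
        obtain ⟨rfl, rfl⟩ := h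
        refine ⟨fun _ => Or.inr (R4 hs ?_ ?_ ?_), fun hr => Bool.noConfusion hr⟩
        · rw [nPx]; omega
        · rw [nPx]; dsimp only; omega
        · rw [nPx, nPy]; dsimp only; omega
    · by_cases h0 : j.val = m
      · have e : io k (PV.y j) 1 = .inl (if k then (.z, 2) else (.c1, 2)) := by
          show (if h : j.val = m then _ else _) = _
          rw [dif_pos h0]
        replace h := e.symm.trans h
        refine ⟨fun hr => Bool.noConfusion hr, fun _ => ?_⟩
        right
        cases k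
        · simp only [Sum.inl.injEq, Bool.false_eq_true, if_false, Prod.mk.injEq] at h
          obtain ⟨rfl, rfl⟩ := h
          exact I8 (hk' rfl) rfl (by rw [nPy]; omega)
        · simp only [Sum.inl.injEq, if_true, Prod.mk.injEq] at h
          obtain ⟨rfl, rfl⟩ := h
          exact I7 (hk.mp rfl) rfl (by rw [nPy]; omega)
      · have e : io k (PV.y j) 1 = .inl (.x ⟨j.val + 1, by omega⟩, 0) := by
          show (if h : j.val = m then _ else _) = _
          rw [dif_neg h0]
        replace h := e.symm.trans h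
        simp only [Sum.inl.injEq, Prod.mk.injEq] at h
        obtain ⟨rfl, rfl⟩ := h
        refine ⟨fun hr => Bool.noConfusion hr, fun _ => Or.inl (I10 ?_ ?_ ?_)⟩
        · rw [nPy]; omega
        · rw [nPx]; dsimp only; omega
        · rw [nPx, nPy]; dsimp only; omega
    · have e : io k (PV.y j) 2 = .inl (.x j, 2) := rfl
      replace h := e.symm.trans h
      simp only [Sum.inl.injEq, Prod.mk.injEq] at h
      obtain ⟨rfl, rfl⟩ := h
      refine ⟨fun _ => Or.inr (R3 hs ?_ ?_ ?_), fun hr => Bool.noConfusion hr⟩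
      · rw [nPx]; omega
      · rw [nPx]; omega
      · rw [nPx, nPy]; omega
  | c1 =>
    rcases f3 a with rfl | rfl | rfl
    · exact absurd h (by simp [io])
    · replace h : (Sum.inl (PV.c2, 1) : (PV m × Fin 3) ⊕ Fin 3) = _ := h
      simp only [Sum.inl.injEq, Prod.mk.injEq] at h
      obtain ⟨rfl, rfl⟩ := h
      exact ⟨fun hr => Bool.noConfusion hr, fun _ => Or.inl (I1 rfl rfl)⟩
    · replace h : (Sum.inl (if k then (.x (Fin.last m), 1) else (.y (Fin.last m), 1)) :
        (PV m × Fin 3) ⊕ Fin 3) = _ := h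
      refine ⟨fun hr => Bool.noConfusion hr, fun _ => ?_⟩
      left
      cases k
      · simp only [Sum.inl.injEq, Bool.false_eq_true, if_false, Prod.mk.injEq] at h
        obtain ⟨rfl, rfl⟩ := h
        exact I8 (hk' rfl) rfl (by rw [nPy, Fin.val_last]; omega)
      · simp only [Sum.inl.injEq, if_true, Prod.mk.injEq] at h
        obtain ⟨rfl, rfl⟩ := h
        exact I6 (hk.mp rfl) rfl (by rw [nPx, Fin.val_last]; omega)
  | c2 =>
    rcases f3 a with rfl | rfl | rfl
    · exact absurd h (by simp [io])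
    · replace h : (Sum.inl (PV.c1, 1) : (PV m × Fin 3) ⊕ Fin 3) = _ := h
      simp only [Sum.inl.injEq, Prod.mk.injEq] at h
      obtain ⟨rfl, rfl⟩ := h
      exact ⟨fun hr => Bool.noConfusion hr, fun _ => Or.inr (I1 rfl rfl)⟩
    · replace h : (Sum.inl (PV.w, 1) : (PV m × Fin 3) ⊕ Fin 3) = _ := h
      simp only [Sum.inl.injEq, Prod.mk.injEq] at h
      obtain ⟨rfl, rfl⟩ := h
      exact ⟨fun hr => Bool.noConfusion hr, fun _ => Or.inl (I2 rfl rfl)⟩
  | z =>
    rcases f3 a with rfl | rfl | rfl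
    · exact absurd h (by simp [io])
    · replace h : (Sum.inl (PV.w, 2) : (PV m × Fin 3) ⊕ Fin 3) = _ := h
      simp only [Sum.inl.injEq, Prod.mk.injEq] at h
      obtain ⟨rfl, rfl⟩ := h
      exact ⟨fun hr => Bool.noConfusion hr, fun _ => Or.inl (I3 rfl rfl)⟩
    · replace h : (Sum.inl (if k then (.y (Fin.last m), 1) else (.x (Fin.last m), 1)) :
        (PV m × Fin 3) ⊕ Fin 3) = _ := h
      refine ⟨fun hr => Bool.noConfusion hr, fun _ => ?_⟩
      left
      cases k
      · simp only [Sum.inl.injEq, Bool.false_eq_true, if_false, Prod.mk.injEq] at h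
        obtain ⟨rfl, rfl⟩ := h
        exact I9 (hk' rfl) rfl (by rw [nPx, Fin.val_last]; omega)
      · simp only [Sum.inl.injEq, if_true, Prod.mk.injEq] at h
        obtain ⟨rfl, rfl⟩ := h
        exact I7 (hk.mp rfl) rfl (by rw [nPy, Fin.val_last]; omega)
  | w =>
    rcases f3 a with rfl | rfl | rfl
    · replace h : (Sum.inl (PV.a, 0) : (PV m × Fin 3) ⊕ Fin 3) = _ := h
      simp only [Sum.inl.injEq, Prod.mk.injEq] at h
      obtain ⟨rfl, rfl⟩ := h
      exact ⟨fun hr => Bool.noConfusion hr, fun _ => Or.inl (I4 rfl rfl)⟩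
    · replace h : (Sum.inl (PV.c2, 2) : (PV m × Fin 3) ⊕ Fin 3) = _ := h
      simp only [Sum.inl.injEq, Prod.mk.injEq] at h
      obtain ⟨rfl, rfl⟩ := h
      exact ⟨fun hr => Bool.noConfusion hr, fun _ => Or.inr (I2 rfl rfl)⟩
    · replace h : (Sum.inl (PV.z, 1) : (PV m × Fin 3) ⊕ Fin 3) = _ := h
      simp only [Sum.inl.injEq, Prod.mk.injEq] at h
      obtain ⟨rfl, rfl⟩ := h
      exact ⟨fun hr => Bool.noConfusion hr, fun _ => Or.inr (I3 rfl rfl)⟩
  | a =>
    rcases f3 a with rfl | rfl | rfl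
    · replace h : (Sum.inl (PV.w, 0) : (PV m × Fin 3) ⊕ Fin 3) = _ := h
      simp only [Sum.inl.injEq, Prod.mk.injEq] at h
      obtain ⟨rfl, rfl⟩ := h
      exact ⟨fun hr => Bool.noConfusion hr, fun _ => Or.inr (I4 rfl rfl)⟩
    · replace h : (Sum.inl (PV.x 0, 0) : (PV m × Fin 3) ⊕ Fin 3) = _ := h
      simp only [Sum.inl.injEq, Prod.mk.injEq] at h
      obtain ⟨rfl, rfl⟩ := h
      exact ⟨fun hr => Bool.noConfusion hr, fun _ => Or.inl (I5 rfl rfl)⟩
    · replace h : (Sum.inl (PV.y 0, 0) : (PV m × Fin 3) ⊕ Fin 3) = _ := h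
      simp only [Sum.inl.injEq, Prod.mk.injEq] at h
      obtain ⟨rfl, rfl⟩ := h
      exact ⟨fun _ => Or.inl (R2 hs rfl rfl), fun hr => Bool.noConfusion hr⟩

theorem io_inr {k : Bool} {q : PV m} {a l : Fin 3} (h : io k q a = .inr l) : q = lgv l ∧ a = 0 := by
  cases q with
  | c1 =>
    rcases f3 a with rfl | rfl | rfl
    · replace h : (Sum.inr 0 : (PV m × Fin 3) ⊕ Fin 3) = _ := h
      simp only [Sum.inr.injEq] at h
      subst h
      exact ⟨rfl, rfl⟩
    · exact absurd h (by simp [io])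
    · exact absurd h (by simp [io])
  | c2 =>
    rcases f3 a with rfl | rfl | rfl
    · replace h : (Sum.inr 1 : (PV m × Fin 3) ⊕ Fin 3) = _ := h
      simp only [Sum.inr.injEq] at h
      subst h
      exact ⟨rfl, rfl⟩
    · exact absurd h (by simp [io])
    · exact absurd h (by simp [io])
  | z =>
    rcases f3 a with rfl | rfl | rfl
    · replace h : (Sum.inr 2 : (PV m × Fin 3) ⊕ Fin 3) = _ := h
      simp only [Sum.inr.injEq] at h
      subst h
      exact ⟨rfl, rfl⟩
    · exact absurd h (by simp [io])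
    · exact absurd h (by simp [io])
  | w => rcases f3 a with rfl | rfl | rfl <;> exact absurd h (by simp [io])
  | a => rcases f3 a with rfl | rfl | rfl <;> exact absurd h (by simp [io])
  | x j =>
    rcases f3 a with rfl | rfl | rfl
    · replace h : (if h : j.val = 0 then _ else _ : (PV m × Fin 3) ⊕ Fin 3) = _ := h
      split_ifs at h
    · replace h : (if h : j.val = m then _ else _ : (PV m × Fin 3) ⊕ Fin 3) = _ := h
      split_ifs at h
    · exact absurd h (by simp [io])
  | y j =>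
    rcases f3 a with rfl | rfl | rfl
    · replace h : (if h : j.val = 0 then _ else _ : (PV m × Fin 3) ⊕ Fin 3) = _ := h
      split_ifs at h
    · replace h : (if h : j.val = m then _ else _ : (PV m × Fin 3) ⊕ Fin 3) = _ := h
      split_ifs at h
    · exact absurd h (by simp [io])

theorem rd_lgv (l : Fin 3) : rd ((lgv l : PV m), 0) = false := by
  fin_cases l <;> rfl

theorem kd_iff (b : Bk κ) (s : Sl) : kd b s = true ↔ pb b = 0 ∧ nS s = 1 := by
  unfold kd
  rw [decide_eq_true_iff]
  obtain ⟨i, o⟩ := b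
  have hs : s = .ax ↔ nS s = 1 := by
    revert s
    decide
  rw [hs]
  cases o <;> simp [pb]

theorem nS_pos (s : Sl) : 1 ≤ nS s := by
  revert s
  decide

theorem pf_D1 : T_D1 := by
  classical
  intro κ m c hc v a w hw
  subst hw
  obtain ⟨b, s⟩ := v
  cases s with
  | none =>
    -- plain vertices
    have hft : ft c (((b, none), a) : Dt (Vt κ m)) = lft (ht c ((b, none), a)) := rfl
    rw [hft]
    by_cases hred : ∃ i j, b = (i, some j) ∧ a = 0 ∧ c i j = 2
    · obtain ⟨i, j, rfl, rfl, h2⟩ := hred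
      have hfr : fr c ((((i, some j), none), 0) : Dt (Vt κ m)) = true := decide_eq_true h2
      refine ⟨fun _ => ?_, fun h => ?_⟩
      · left
        have e : ht c (((i, some j), none), 0) = (((j, some i), none), 0) := by
          show ((sg c ((i, some j), none), 0) : Dt (Hs κ)) = _
          have : sg c ((i, some j), none) = ((j, some i), none) := by
            simp only [sg]
            rw [if_neg (by omega)]
          rw [this]
        rw [e]
        left
        refine ⟨rfl, rfl, rfl, rfl, rfl, rfl, ?_⟩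
        exact (natc c i j).trans h2
      · rw [hfr] at h
        exact absurd h (by decide)
    · have hfr : fr c (((b, none), a) : Dt (Vt κ m)) = false := by
        obtain ⟨i, o⟩ := b
        cases o with
        | none => fin_cases a <;> rfl
        | some j =>
          fin_cases a
          · show decide (c i j = 2) = false
            rw [decide_eq_false_iff_not]
            intro h2
            exact hred ⟨i, j, rfl, rfl, h2⟩
          · rfl
          · rfl
      refine ⟨fun h => ?_, fun _ => ?_⟩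
      · rw [hfr] at h
        exact absurd h (by decide)
      · exact outer (m := m) hc (b, none) a (by
          rintro h0 ⟨i, j, h1, h2⟩
          exact hred ⟨i, j, congrArg Prod.fst h1, h0, h2⟩)
  | some x =>
    obtain ⟨s, q⟩ := x
    have hfr : fr c (((b, some (s, q)), a) : Dt (Vt κ m)) = rd (q, a) := by
      obtain ⟨i, o⟩ := b
      cases o <;> rfl
    rw [hfr]
    cases hio : io (kd b s) q a with
    | inl x =>
      obtain ⟨q', a'⟩ := x
      have hft : ft c (((b, some (s, q)), a) : Dt (Vt κ m)) = ((b, some (s, q')), a') := by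
        show (match io (kd b s) q a with
          | .inl (q', a') => ((b, some (s, q')), a')
          | .inr l => lft (ht c ((b, some s), l))) = _
        rw [hio]
      rw [hft]
      have h1 := inner (kd b s) q a q' a' hio (nat c) b.1.val (pb b) (nS s) (kd_iff b s) (nS_pos s)
      rw [cp_eq, cp_eq]
      refine ⟨h1.1, fun h => ?_⟩
      rcases h1.2 h with h2 | h2
      · left
        right; right; right; right
        exact ⟨nS_pos s, rfl, rfl, rfl, h2⟩
      · right
        right; right; right; right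
        exact ⟨nS_pos s, rfl, rfl, rfl, h2⟩
    | inr l =>
      have hft : ft c (((b, some (s, q)), a) : Dt (Vt κ m)) = lft (ht c ((b, some s), l)) := by
        show (match io (kd b s) q a with
          | .inl (q', a') => ((b, some (s, q')), a')
          | .inr l => lft (ht c ((b, some s), l))) = _
        rw [hio]
      rw [hft]
      obtain ⟨rfl, rfl⟩ := io_inr hio
      rw [rd_lgv]
      refine ⟨fun h => absurd h (by decide), fun _ => ?_⟩
      exact outer (m := m) hc (b, some s) l (by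
        rintro h0 ⟨i, j, h1, h2⟩
        exact absurd (congrArg Prod.snd h1) (by simp))

end

end Pool.Agent.H58.EMC
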