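import Pool.Agent.H58.EMC.D1

/-!
# Row D2 of the board emc_modules: every arc comes from a dart
-/

set_option autoImplicit false

open Finset Pool.Agent.H72.EM

namespace Pool.Agent.H58.EMC

section
variable {κ m : ℕ}

theorem host_inj {h h' : Hs κ} (h1 : h.1.1.val = h'.1.1.val) (h2 : pb h.1 = pb h'.1)
    (h3 : sb h.2 = sb h'.2) : h = h' := by
  obtain ⟨b, s⟩ := h
  obtain ⟨b', s'⟩ := h'
  have e1 : b = b' := pb_inj h1 h2
  have e2 : s = s' := sb_inj h3
  rw [e1, e2]

theorem pb_le (b : Bk κ) : pb b ≤ 2 * κ + 2 := by
  obtain ⟨i, o⟩ := b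
  cases o with
  | none => exact Nat.zero_le _
  | some j => exact j.2

/-- the next block is determined by its coordinates -/
theorem aN_uniq {b : Bk κ} {i' p' : ℕ} (h : aN (2 * κ + 2) b.1.val (pb b) i' p')
    (hi : i' < 2 * κ + 2) (hp : p' ≤ 2 * κ + 2) :
    (nxB b).1.val = i' ∧ pb (nxB b) = p' := by
  obtain ⟨i, o⟩ := b
  have hi2 := i.2
  cases o with
  | none =>
    rw [nxB_none]
    simp only [aN, pb] at h
    simp only [pb, zr_val]
    omega
  | some j =>
    have hj := j.2
    simp only [aN, pb] at h
    by_cases h1 : j.val = 2 * κ + 1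
    · have e : nxB (i, some j) = (up i, none) := by rw [nxB_some, if_pos h1]
      rw [e]
      have h2 := up_val i
      simp only [pb]
      split_ifs at h2 <;> omega
    · have e : nxB (i, some j) = (i, some (up j)) := by rw [nxB_some, if_neg h1]
      rw [e]
      have h2 := up_val j
      rw [if_neg h1] at h2
      simp only [pb]
      omega

theorem chordInv {c : Ix κ → Ix κ → ℕ} (hc : Sy c) {h h' : Hs κ} (hch : aCh c h h') :
    sg c h = h' ∧ ¬ ∃ i j, h = ((i, some j), none) ∧ c i j = 2 := by
  have hi' := h'.1.1.2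
  have hp' := pb_le h'.1
  suffices hs : ((sg c h).1.1.val = h'.1.1.val ∧ pb (sg c h).1 = pb h'.1 ∧
      sb (sg c h).2 = sb h'.2) ∧ ¬ ∃ i j, h = ((i, some j), none) ∧ c i j = 2 from
    ⟨host_inj hs.1.1 hs.1.2.1 hs.1.2.2, hs.2⟩
  unfold aCh at hch
  generalize h'.1.1.val = i' at *
  generalize pb h'.1 = p' at *
  generalize sb h'.2 = s' at *
  obtain ⟨⟨i, o⟩, s⟩ := h
  have hi := i.2
  have hl : (lst : Ix κ).val = 2 * κ + 1 := rfl
  have hz : (zr : Ix κ).val = 0 := rfl
  cases o with
  | none =>
    refine ⟨?_, by rintro ⟨i, j, h, -⟩; exact absurd (congrArg (fun x => x.1.2) h) (by simp)⟩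
    cases s with
    | none =>
      have e : sg c ((i, none), none) = ((i, none), some .bv) := rfl
      rw [e]
      simp only [aC, pb, sb, nS] at hch ⊢
      omega
    | some s =>
      cases s with
      | ax =>
        have h1 := tw_val i
        have e : sg c ((i, none), some .ax) = ((tw i, none), some .ax) := rfl
        rw [e]
        simp only [aC, pb, sb, nS] at hch ⊢
        split_ifs at h1 <;> omega
      | ay =>
        exfalso
        simp only [aC, pb, sb, nS] at hch
        omega
      | az =>
        by_cases h1 : i.val = 0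
        · have e : sg c ((i, none), some .az) = ((i, none), some .bx) := by
            simp only [sg]; rw [if_pos h1]
          rw [e]
          simp only [aC, pb, sb, nS] at hch ⊢
          omega
        · have e : sg c ((i, none), some .az) = ((i, none), some .by') := by
            simp only [sg]; rw [if_neg h1]
          rw [e]
          simp only [aC, pb, sb, nS] at hch ⊢
          omega
      | bv =>
        exfalso
        simp only [aC, pb, sb, nS] at hch
        omega
      | bx =>
        simp only [aC, pb, sb, nS] at hch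
        have e : sg c ((i, none), some .bx) = ((⟨i.val + κ, by omega⟩, none), some .bx) := by
          simp only [sg]; rw [if_neg (by omega), if_neg (by omega), dif_pos (by omega)]
        rw [e]
        simp only [pb, sb, nS]
        omega
      | by' =>
        simp only [aC, pb, sb, nS] at hch
        have e : sg c ((i, none), some .by') = ((lst, some lst), some .bx) := by
          simp only [sg]; rw [if_pos (by omega)]
        rw [e]
        simp only [pb, sb, nS]
        omega
      | bz =>
        have h1 : s' = 2 ∧ aN (2 * κ + 2) i.val (pb ((i, none) : Bk κ)) i' p' := by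
          simp only [aC, pb, sb, nS, aN] at hch ⊢
          omega
        have h2 := aN_uniq (b := ((i, none) : Bk κ)) h1.2 hi' hp'
        exact ⟨h2.1, h2.2, h1.1.symm⟩
  | some j =>
    have hj := j.2
    cases s with
    | none =>
      -- plain vertices
      have h1 : i' = j.val := by
        simp only [aC, pb, sb] at hch
        omega
      subst h1
      have hnc : nat c i.val j.val = c i j := natc c i j
      simp only [aC, pb, sb, hnc] at hch
      refine ⟨?_, ?_⟩
      · by_cases h0 : c i j = 0
        · have e : sg c ((i, some j), none) = ((j, some i), some .bv) := by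
            simp only [sg]; rw [if_pos h0]
          rw [e]
          simp only [pb, sb, nS, true_and]
          omega
        · have e : sg c ((i, some j), none) = ((j, some i), none) := by
            simp only [sg]; rw [if_neg h0]
          rw [e]
          simp only [pb, sb, true_and]
          omega
      · rintro ⟨i2, j2, h2, h3⟩
        have e1 : i = i2 := congrArg (fun x => x.1.1) h2
        have e2 : j = j2 := Option.some.inj (congrArg (fun x => x.1.2) h2)
        subst e1
        subst e2
        omega
    | some s =>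
      refine ⟨?_, by rintro ⟨i, j, h, -⟩; exact absurd (congrArg (fun x => x.2) h) (by simp)⟩
      cases s with
      | ax =>
        by_cases h1 : j.val < i.val
        · have e : sg c ((i, some j), some .ax) = ((i, some j), some .bx) := by
            simp only [sg]; rw [if_pos h1]
          rw [e]
          simp only [aC, pb, sb, nS] at hch ⊢
          omega
        · by_cases h2 : i.val < j.val
          · have e : sg c ((i, some j), some .ax) = ((i, some (dn j)), some .bx) := by
              simp only [sg]; rw [if_neg h1, if_pos h2]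
            have h3 := dn_val j
            rw [if_neg (by omega)] at h3
            rw [e]
            simp only [aC, pb, sb, nS] at hch ⊢
            omega
          · by_cases h4 : i.val = 0
            · have e : sg c ((i, some j), some .ax) = ((lst, none), some .bx) := by
                simp only [sg]; rw [if_neg h1, if_neg h2, if_pos h4]
              rw [e]
              simp only [aC, pb, sb, nS] at hch ⊢
              omega
            · have e : sg c ((i, some j), some .ax) = ((dn i, some lst), some .bx) := by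
                simp only [sg]; rw [if_neg h1, if_neg h2, if_neg h4]
              have h3 := dn_val i
              rw [if_neg h4] at h3
              rw [e]
              simp only [aC, pb, sb, nS] at hch ⊢
              omega
      | ay =>
        exfalso
        simp only [aC, pb, sb, nS] at hch
        omega
      | az =>
        have e : sg c ((i, some j), some .az) = ((i, some j), some .by') := rfl
        rw [e]
        simp only [aC, pb, sb, nS] at hch ⊢
        omega
      | bv =>
        have h1 : i' = j.val := by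
          simp only [aC, pb, sb, nS] at hch
          omega
        subst h1
        have hnc : nat c i.val j.val = c i j := natc c i j
        simp only [aC, pb, sb, nS, hnc] at hch
        have e : sg c ((i, some j), some .bv) = ((j, some i), some .bv) := by
          simp only [sg]; rw [if_neg (by omega)]
        rw [e]
        simp only [pb, sb, nS, true_and]
        omega
      | bx =>
        exfalso
        simp only [aC, pb, sb, nS] at hch
        omega
      | by' =>
        exfalso
        simp only [aC, pb, sb, nS] at hch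
        omega
      | bz =>
        have h1 : s' = 2 ∧ aN (2 * κ + 2) i.val (pb ((i, some j) : Bk κ)) i' p' := by
          simp only [aC, pb, sb, nS, aN] at hch ⊢
          omega
        have h2 := aN_uniq (b := ((i, some j) : Bk κ)) h1.2 hi' hp'
        exact ⟨h2.1, h2.2, h1.1.symm⟩

theorem ft_lft (c : Ix κ → Ix κ → ℕ) (x : Dt (Hs κ)) :
    ft c (lft x : Dt (Vt κ m)) = lft (ht c x) := by
  obtain ⟨⟨b, s⟩, l⟩ := x
  cases s with
  | none => rfl
  | some s =>
    have h1 : io (kd b s) (lgv l : PV m) 0 = .inr l := by
      rcases f3 l with rfl | rfl | rfl <;> rfl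
    show (match io (kd b s) (lgv l : PV m) 0 with
      | .inl (q', a') => ((b, some (s, q')), a')
      | .inr l => lft (ht c ((b, some s), l)) : Dt (Vt κ m)) = _
    rw [h1]

theorem fr_lft (c : Ix κ → Ix κ → ℕ) (h : Hs κ) (l : Fin 3)
    (hred : l = 0 → ¬ ∃ i j, h = ((i, some j), none) ∧ c i j = 2) :
    fr c (lft (h, l) : Dt (Vt κ m)) = false := by
  obtain ⟨⟨i, o⟩, s⟩ := h
  cases s with
  | none =>
    cases o with
    | none => rcases f3 l with rfl | rfl | rfl <;> rfl
    | some j =>
      rcases f3 l with rfl | rfl | rfl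
      · show decide (c i j = 2) = false
        rw [decide_eq_false_iff_not]
        intro h2
        exact hred rfl ⟨i, j, rfl, h2⟩
      · rfl
      · rfl
  | some s =>
    have h1 : fr c (lft (((i, o), some s), l) : Dt (Vt κ m)) = rd ((lgv l : PV m), 0) := by
      cases o <;> rfl
    rw [h1, rd_lgv]

/-- a dart of the final graph from a dart of the host -/
theorem of_host (c : Ix κ → Ix κ → ℕ) {h : Hs κ} {l : Fin 3} {v w : Vt κ m}
    (hv : v = (lft (h, l) : Dt (Vt κ m)).1) (hw : (lft (ht c (h, l)) : Dt (Vt κ m)).1 = w)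
    (hred : l = 0 → ¬ ∃ i j, h = ((i, some j), none) ∧ c i j = 2) :
    ∃ a, (ft c (v, a)).1 = w ∧ fr c (v, a) = false := by
  refine ⟨(lft (h, l) : Dt (Vt κ m)).2, ?_, ?_⟩
  · rw [hv]
    show (ft c (lft (h, l) : Dt (Vt κ m))).1 = w
    rw [ft_lft]
    exact hw
  · rw [hv]
    exact fr_lft c h l hred

theorem host_of_zero {v : Vt κ m} (h : cr v = 0) :
    ∃ h : Hs κ, v = (lft (h, 0) : Dt (Vt κ m)).1 := by
  obtain ⟨b, s⟩ := v
  cases s with
  | none => exact ⟨(b, none), rfl⟩
  | some x =>
    obtain ⟨s, q⟩ := x
    have h1 : q = .c1 := nP_inj (q' := .c1) h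
    subst h1
    exact ⟨(b, some s), rfl⟩

theorem qx {q : PV m} (h1 : 5 ≤ nP q) (h2 : nP q < 5 + (m + 1)) :
    ∃ j : Fin (m + 1), q = .x j ∧ nP q = 5 + j.val := by
  refine ⟨⟨nP q - 5, by omega⟩, nP_inj ?_, by dsimp only; omega⟩
  rw [nPx]
  dsimp only
  omega

theorem nP_lt (q : PV m) : nP q < 5 + (m + 1) + (m + 1) := by
  cases q with
  | x j => rw [nPx]; have := j.2; omega
  | y j => rw [nPy]; have := j.2; omega
  | c1 => simp only [nP]; omega
  | c2 => simp only [nP]; omega
  | z => simp only [nP]; omega
  | w => simp only [nP]; omega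
  | a => simp only [nP]; omega

theorem qy {q : PV m} (h1 : 5 + (m + 1) ≤ nP q) :
    ∃ j : Fin (m + 1), q = .y j ∧ nP q = 5 + (m + 1) + j.val := by
  have h3 := nP_lt q
  refine ⟨⟨nP q - (5 + (m + 1)), by omega⟩, nP_inj ?_, by dsimp only; omega⟩
  rw [nPy]
  dsimp only
  omega

theorem innerB (k : Bool) (q q' : PV m) (p s : ℕ) (hk : k = true ↔ p = 0 ∧ s = 1)
    (h : aI (m + 1) p s (nP q) (nP q')) :
    ∃ a a', io k q a = .inl (q', a') ∧ rd (q, a) = false := by
  have hkf : (1 ≤ p ∨ 2 ≤ s) → k = false := by
    intro hh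
    cases k
    · rfl
    · have := hk.mp rfl
      omega
  rcases h with h | h | h | h | h | h | h | h | h | h
  · have e1 : q = .c1 := nP_inj (q' := .c1) h.1
    have e2 : q' = .c2 := nP_inj (q' := .c2) h.2
    subst e1; subst e2
    exact ⟨1, 1, rfl, rfl⟩
  · have e1 : q = .c2 := nP_inj (q' := .c2) h.1
    have e2 : q' = .w := nP_inj (q' := .w) h.2
    subst e1; subst e2
    exact ⟨2, 1, rfl, rfl⟩
  · have e1 : q = .z := nP_inj (q' := .z) h.1
    have e2 : q' = .w := nP_inj (q' := .w) h.2
    subst e1; subst e2
    exact ⟨1, 2, rfl, rfl⟩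
  · have e1 : q = .w := nP_inj (q' := .w) h.1
    have e2 : q' = .a := nP_inj (q' := .a) h.2
    subst e1; subst e2
    exact ⟨0, 0, rfl, rfl⟩
  · have e1 : q = .a := nP_inj (q' := .a) h.1
    have e2 : q' = .x 0 := nP_inj (q' := .x 0) h.2
    subst e1; subst e2
    exact ⟨1, 0, rfl, rfl⟩
  · have e1 : q = .c1 := nP_inj (q' := .c1) h.2.2.1
    have e2 : q' = .x (Fin.last m) := nP_inj (by rw [nPx, Fin.val_last, h.2.2.2]; omega)
    have e3 : k = true := hk.mpr ⟨h.1, h.2.1⟩
    subst e1; subst e2; subst e3
    exact ⟨2, 1, rfl, rfl⟩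
  · have e1 : q = .z := nP_inj (q' := .z) h.2.2.1
    have e2 : q' = .y (Fin.last m) := nP_inj (by rw [nPy, Fin.val_last, h.2.2.2]; omega)
    have e3 : k = true := hk.mpr ⟨h.1, h.2.1⟩
    subst e1; subst e2; subst e3
    exact ⟨2, 1, rfl, rfl⟩
  · have e1 : q = .c1 := nP_inj (q' := .c1) h.2.1
    have e2 : q' = .y (Fin.last m) := nP_inj (by rw [nPy, Fin.val_last, h.2.2]; omega)
    have e3 : k = false := hkf h.1
    subst e1; subst e2; subst e3
    exact ⟨2, 1, rfl, rfl⟩
  · have e1 : q = .z := nP_inj (q' := .z) h.2.1
    have e2 : q' = .x (Fin.last m) := nP_inj (by rw [nPx, Fin.val_last, h.2.2]; omega)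
    have e3 : k = false := hkf h.1
    subst e1; subst e2; subst e3
    exact ⟨2, 1, rfl, rfl⟩
  · obtain ⟨j, rfl, hj⟩ := qy h.1
    obtain ⟨j', rfl, hj'⟩ := qx (q := q') (by omega) h.2.1
    have h3 := h.2.2
    rw [hj, hj'] at h3
    have hj'2 := j'.2
    refine ⟨1, 0, ?_, rfl⟩
    show (if h : j.val = m then _ else _) = _
    rw [dif_neg (by omega)]
    congr 3
    apply Fin.ext
    dsimp only
    omega

theorem innerR (k : Bool) (q q' : PV m)
    (h : (nP q = 4 ∧ nP q' = 5 + (m + 1)) ∨
      (5 ≤ nP q ∧ nP q < 5 + (m + 1) ∧ nP q' = nP q + (m + 1)) ∨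
      (5 ≤ nP q ∧ nP q + 1 < 5 + (m + 1) ∧ nP q' = nP q + (m + 1) + 1)) :
    ∃ a a', io k q a = .inl (q', a') ∧ rd (q, a) = true := by
  rcases h with h | h | h
  · have e1 : q = .a := nP_inj (q' := .a) h.1
    have e2 : q' = .y 0 := nP_inj (q' := .y 0) h.2
    subst e1; subst e2
    exact ⟨2, 0, rfl, rfl⟩
  · obtain ⟨j, rfl, hj⟩ := qx h.1 h.2.1
    have e2 : q' = .y j := nP_inj (by rw [nPy]; omega)
    subst e2
    exact ⟨2, 2, rfl, rfl⟩
  · obtain ⟨j, rfl, hj⟩ := qx h.1 (by omega)
    have h2 := h.2.1
    rw [hj] at h2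
    have hlt : j.val + 1 < m + 1 := by omega
    have e2 : q' = .y ⟨j.val + 1, hlt⟩ := nP_inj (by rw [nPy]; dsimp only; omega)
    refine ⟨1, 0, ?_, ?_⟩
    · rw [e2]
      show (if h : j.val = m then _ else _) = _
      rw [dif_neg (by omega)]
    · show decide (j.val ≠ m) = true
      rw [decide_eq_true_iff]
      omega

theorem cs_pos {v : Vt κ m} (h : 1 ≤ cs v) : ∃ b s q, v = (b, some (s, q)) := by
  obtain ⟨b, s⟩ := v
  cases s with
  | none => exact absurd h (by simp [cs])
  | some x =>
    obtain ⟨s, q⟩ := x
    exact ⟨b, s, q, rfl⟩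

theorem cs_zero {v : Vt κ m} (h : cs v = 0) : ∃ b, v = (b, none) := by
  obtain ⟨b, s⟩ := v
  cases s with
  | none => exact ⟨b, rfl⟩
  | some x =>
    obtain ⟨s, q⟩ := x
    have := nS_pos s
    exact absurd (show nS s = 0 from h) (by omega)

theorem nS_inj {s s' : Sl} (h : nS s = nS s') : s = s' := Option.some.inj (sb_inj h)

theorem ft_inner (c : Ix κ → Ix κ → ℕ) {b : Bk κ} {s : Sl} {q q' : PV m} {a a' : Fin 3}
    (h : io (kd b s) q a = .inl (q', a')) :
    ft c (((b, some (s, q)), a) : Dt (Vt κ m)) = ((b, some (s, q')), a') := by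
  show (match io (kd b s) q a with
    | .inl (q', a') => ((b, some (s, q')), a')
    | .inr l => lft (ht c ((b, some s), l))) = _
  rw [h]

theorem fr_inner (c : Ix κ → Ix κ → ℕ) (b : Bk κ) (s : Sl) (q : PV m) (a : Fin 3) :
    fr c (((b, some (s, q)), a) : Dt (Vt κ m)) = rd (q, a) := by
  obtain ⟨i, o⟩ := b
  cases o <;> rfl

theorem pf_D2 (_ : T_TI) : T_D2 := by
  classical
  intro κ m c hc v w
  constructor
  · rintro (h | h)
    · obtain ⟨h1, h2, h3, h4, h5, h6, h7⟩ := h
      obtain ⟨⟨i, o⟩, rfl⟩ := cs_zero h3
      obtain ⟨⟨i', o'⟩, rfl⟩ := cs_zero h4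
      cases o with
      | none => exact absurd (show i'.val + 1 = 0 from h5) (by omega)
      | some j =>
        cases o' with
        | none => exact absurd (show 0 = i.val + 1 from h6) (by omega)
        | some j' =>
          have e1 : i' = j := Fin.ext (by
            have : i'.val + 1 = j.val + 1 := h5
            omega)
          have e2 : j' = i := Fin.ext (by
            have : j'.val + 1 = i.val + 1 := h6
            omega)
          subst e1
          subst e2
          have h8 : c j' i' = 2 := (natc c j' i').symm.trans h7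
          refine ⟨0, ?_, decide_eq_true h8⟩
          show (lft (sg c ((j', some i'), none), 0) : Dt (Vt κ m)).1 = _
          have e : sg c ((j', some i'), none) = ((i', some j'), none) := by
            simp only [sg]; rw [if_neg (by omega)]
          rw [e]
          rfl
    · -- inside a pole
      have hcom : 1 ≤ cs v ∧ cs w = cs v ∧ ci w = ci v ∧ cp w = cp v := by
        rcases h with h | h | h
        · exact ⟨h.1, h.2.1, h.2.2.1, h.2.2.2.1⟩
        · exact ⟨h.1, h.2.1, h.2.2.1, h.2.2.2.1⟩
        · exact ⟨h.1, h.2.1, h.2.2.1, h.2.2.2.1⟩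
      obtain ⟨b, s, q, rfl⟩ := cs_pos hcom.1
      obtain ⟨b', s', q', rfl⟩ := cs_pos (v := w) (by rw [hcom.2.1]; exact hcom.1)
      have eb : b' = b := pb_inj hcom.2.2.1
        ((cp_eq ((b', some (s', q')) : Vt κ m)).symm.trans (hcom.2.2.2.trans (cp_eq _)))
      have es : s' = s := nS_inj hcom.2.1
      subst eb
      subst es
      obtain ⟨a, a', h1, h2⟩ := innerR (kd b' s') q q' (by
        rcases h with h | h | h
        · exact Or.inl h.2.2.2.2
        · exact Or.inr (Or.inl h.2.2.2.2)
        · exact Or.inr (Or.inr h.2.2.2.2))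
      exact ⟨a, by rw [ft_inner c h1], by rw [fr_inner]; exact h2⟩
  · rintro (h | h | h | h | h)
    · -- from a plain vertex
      obtain ⟨h1, h2, h3, h4, h5, h6⟩ := h
      obtain ⟨b, rfl⟩ := cs_zero h5
      refine of_host c (h := (b, none)) (l := 2) rfl ?_ fun h => absurd h (by decide)
      refine coord_inj ?_ ?_ ?_ ?_
      · exact h2.symm
      · refine Eq.trans ?_ h3.symm
        rw [cp_eq, cp_eq]
        rfl
      · exact h1.symm
      · exact h4.symm
    · -- from a pole to the next one
      obtain ⟨h1, h2, h3, h4, h5, h6⟩ := h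
      obtain ⟨b, s, q, rfl⟩ := cs_pos h5
      have eq : q = .z := nP_inj (q' := .z) h6
      subst eq
      refine of_host c (h := (b, some s)) (l := 2) rfl ?_ fun h => absurd h (by decide)
      cases s
      case bz =>
        exfalso
        obtain ⟨b', s', q', rfl⟩ := cs_pos (v := w) (by rw [h1]; omega)
        have h7 : nS s' = 8 := h1
        have h8 : ∀ s : Sl, nS s ≠ 8 := by decide
        exact h8 s' h7
      all_goals
        refine coord_inj ?_ ?_ ?_ ?_
        · exact h2.symm
        · refine Eq.trans ?_ h3.symm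
          rw [cp_eq, cp_eq]
          rfl
        · exact h1.symm
        · exact h4.symm
    · -- from the last pole to the next block
      obtain ⟨h1, h2, h3, h4, h5⟩ := h
      obtain ⟨b, s, q, rfl⟩ := cs_pos (v := v) (by rw [h1]; omega)
      have eq : q = .z := nP_inj (q' := .z) h3
      have es : s = .bz := nS_inj h1
      subst eq
      subst es
      have h6 := aN_uniq (b := b) (i' := ci w) (p' := cp w) (by
        have h7 : cp (((b, some (.bz, .z)) : Vt κ m)) = pb b := cp_eq _
        rw [← h7]
        exact h5) w.1.1.2 (by rw [cp_eq]; exact pb_le _)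
      refine of_host c (h := (b, some .bz)) (l := 2) rfl ?_ fun h => absurd h (by decide)
      refine coord_inj ?_ ?_ ?_ ?_
      · exact h6.1
      · refine Eq.trans ?_ h6.2
        exact cp_eq _
      · exact h2.symm
      · exact h4.symm
    · -- chords
      obtain ⟨h1, h2, h3⟩ := h
      obtain ⟨h, rfl⟩ := host_of_zero h1
      obtain ⟨h', rfl⟩ := host_of_zero h2
      rw [lft_ci, lft_cp, lft_cs, lft_ci, lft_cp, lft_cs] at h3
      obtain ⟨h4, h5⟩ := chordInv hc (h := h) (h' := h') h3
      refine of_host c (h := h) (l := 0) rfl ?_ fun _ => h5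
      show (lft (sg c h, 0) : Dt (Vt κ m)).1 = _
      rw [h4]
    · -- inside a pole
      obtain ⟨h1, h2, h3, h4, h5⟩ := h
      obtain ⟨b, s, q, rfl⟩ := cs_pos h1
      obtain ⟨b', s', q', rfl⟩ := cs_pos (v := w) (by rw [h2]; exact h1)
      have eb : b' = b := pb_inj h3
        ((cp_eq ((b', some (s', q')) : Vt κ m)).symm.trans (h4.trans (cp_eq _)))
      have es : s' = s := nS_inj h2
      subst eb
      subst es
      obtain ⟨a, a', h6, h7⟩ := innerB (kd b' s') q q' (cp ((b', some (s', q)) : Vt κ m)) (nS s')
        (by rw [cp_eq]; exact kd_iff b' s') h5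
      exact ⟨a, by rw [ft_inner c h6], by rw [fr_inner]; exact h7⟩

end

end Pool.Agent.H58.EMC
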