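import Pool.Agent.H72.EM.Basic

/-!
# Row IH of the board emc_modules: from the given graph to the host
-/

set_option autoImplicit false

open Finset Pool.Agent.H72.EM

namespace Pool.Agent.H58.EMC

section
variable {κ : ℕ}

/-- the states of a closed block, `t = true`: first vertex not 2 -/
def wv : Bool → Sl → Fin 3
  | true, .ax => 2
  | true, .ay => 1
  | true, .az => 2
  | true, .bv => 1
  | true, .bx => 2
  | true, .by' => 1
  | true, .bz => 2
  | false, .ax => 1
  | false, .ay => 2
  | false, .az => 1
  | false, .bv => 2
  | false, .bx => 1
  | false, .by' => 2
  | false, .bz => 1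

/-- the matching of the host -/
def om (μ : Ix κ → Ix κ) : Hs κ → Fin 3
  | ((_, none), none) => 1
  | ((_, none), some .ax) => 0
  | ((_, none), some s) => wv false s
  | ((i, some j), none) => if j.val < (μ i).val then 2 else if j = μ i then 0 else 1
  | ((i, some j), some s) => wv (decide (¬ j.val < (μ i).val)) s

theorem om_sw (μ : Ix κ → Ix κ) (i j : Ix κ) : om μ ((i, some j), none) = 0 ↔ j = μ i := by
  show (if j.val < (μ i).val then (2 : Fin 3) else if j = μ i then 0 else 1) = 0 ↔ j = μ i
  split_ifs with h1 h2
  · constructor
    · intro h
      exact absurd h (by decide)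
    · intro h
      rw [h] at h1
      exact absurd h1 (lt_irrefl _)
  · exact ⟨fun _ => h2, fun _ => rfl⟩
  · exact ⟨fun h => absurd h (by decide), fun h => absurd h h2⟩

theorem om_bz {μ : Ix κ → Ix κ} {i j : Ix κ} (h : ¬ j.val < (μ i).val) :
    om μ ((i, some j), some .bz) = 2 := by
  show wv (decide (¬ j.val < (μ i).val)) .bz = 2
  rw [decide_eq_true h]
  rfl

theorem om_gt {μ : Ix κ → Ix κ} {i j : Ix κ} (h : (μ i).val < j.val) :
    om μ ((i, some j), none) = 1 := by
  show (if j.val < (μ i).val then (2 : Fin 3) else if j = μ i then 0 else 1) = 1
  rw [if_neg (by omega), if_neg fun hh => by rw [hh] at h; exact lt_irrefl _ h]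

theorem pf_IH0 : T_IH := by
  classical
  rintro κ k c hc ⟨μ, hμμ, hμ0, hμk⟩
  refine ⟨om μ, ⟨?_, fun _ => rfl, ?_⟩, ?_⟩
  · rintro ⟨⟨i, o⟩, s⟩
    cases o with
    | none =>
      cases s with
      | none =>
        show (2 : Fin 3) = om μ ((dn i, some lst), some .bz)
        rw [om_bz]
        have := (μ (dn i)).2
        rw [lst_val]
        omega
      | some s => cases s <;> rfl
    | some j =>
      cases s with
      | none =>
        by_cases h1 : j.val < (μ i).val
        · have e1 : om μ ((i, some j), none) = 2 := by
            show (if j.val < (μ i).val then (2 : Fin 3) else if j = μ i then 0 else 1) = 2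
            rw [if_pos h1]
          rw [e1]
          show (1 : Fin 3) = wv (decide (¬ j.val < (μ i).val)) .ax
          rw [decide_eq_false (not_not.mpr h1)]
          rfl
        · by_cases h2 : j = μ i
          · have e1 : om μ ((i, some j), none) = 0 := (om_sw μ i j).mpr h2
            rw [e1]
            show (0 : Fin 3) = om μ (if c i j = 0 then ((j, some i), some .bv) else ((j, some i), none))
            rw [if_neg (by rw [h2]; exact hμ0 i)]
            symm
            rw [om_sw, h2, hμμ]
          · have h3 : (μ i).val < j.val := by
              rcases lt_trichotomy j.val (μ i).val with h | h | h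
              · exact absurd h h1
              · exact absurd (Fin.ext h) h2
              · exact h
            rw [om_gt h3]
            show (2 : Fin 3) = om μ (pvB (i, some j), some .bz)
            rw [pvB_some, if_neg (by omega), om_bz]
            rw [dn_val, if_neg (by omega)]
            omega
      | some s =>
        by_cases h1 : j.val < (μ i).val
        · have hd : decide (¬ j.val < (μ i).val) = false := decide_eq_false (not_not.mpr h1)
          have e1 : ∀ s, om μ ((i, some j), some s) = wv false s := by
            intro s
            show wv (decide (¬ j.val < (μ i).val)) s = _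
            rw [hd]
          have e2 : om μ ((i, some j), none) = 2 := by
            show (if j.val < (μ i).val then (2 : Fin 3) else if j = μ i then 0 else 1) = 2
            rw [if_pos h1]
          rw [e1]
          cases s
          · show (2 : Fin 3) = om μ ((i, some j), none)
            exact e2.symm
          · show (1 : Fin 3) = om μ ((i, some j), some .az)
            rw [e1]; rfl
          · show (2 : Fin 3) = om μ ((i, some j), some .ay)
            rw [e1]; rfl
          · show (1 : Fin 3) = om μ ((i, some j), some .bx)
            rw [e1]; rfl
          · show (2 : Fin 3) = om μ ((i, some j), some .bv)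
            rw [e1]; rfl
          · show (1 : Fin 3) = om μ ((i, some j), some .bz)
            rw [e1]; rfl
          · show (2 : Fin 3) = om μ ((i, some j), some .by')
            rw [e1]; rfl
        · have hd : decide (¬ j.val < (μ i).val) = true := decide_eq_true h1
          have e1 : ∀ s, om μ ((i, some j), some s) = wv true s := by
            intro s
            show wv (decide (¬ j.val < (μ i).val)) s = _
            rw [hd]
          rw [e1]
          cases s
          · show (1 : Fin 3) = om μ ((i, some j), some .ay)
            rw [e1]; rfl
          · show (2 : Fin 3) = om μ ((i, some j), some .ax)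
            rw [e1]; rfl
          · show (1 : Fin 3) = om μ ((i, some j), some .bv)
            rw [e1]; rfl
          · show (2 : Fin 3) = om μ ((i, some j), some .az)
            rw [e1]; rfl
          · show (1 : Fin 3) = om μ ((i, some j), some .by')
            rw [e1]; rfl
          · show (2 : Fin 3) = om μ ((i, some j), some .bx)
            rw [e1]; rfl
          · show (1 : Fin 3) = om μ (nxB (i, some j), none)
            rw [nxB_some]
            by_cases h2 : j.val = 2 * κ + 1
            · rw [if_pos h2]
              rfl
            · rw [if_neg h2, om_gt]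
              rw [up_val, if_neg h2]
              omega
  · rintro ⟨i, o⟩ s hs
    cases o with
    | none =>
      cases s
      · exact absurd ⟨rfl, rfl⟩ hs
      · exact (by decide : (2 : Fin 3) ≠ 0)
      · exact (by decide : (1 : Fin 3) ≠ 0)
      · exact (by decide : (2 : Fin 3) ≠ 0)
      · exact (by decide : (1 : Fin 3) ≠ 0)
      · exact (by decide : (2 : Fin 3) ≠ 0)
      · exact (by decide : (1 : Fin 3) ≠ 0)
    | some j =>
      show wv (decide (¬ j.val < (μ i).val)) s ≠ 0
      generalize decide (¬ j.val < (μ i).val) = t
      revert t s
      intro s _ t
      cases s <;> cases t <;> decide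
  · rw [← hμk]
    unfold hcnt
    have h4 : (univ.filter fun p : Ix κ × Ix κ => om μ ((p.1, some p.2), none) = 0 ∧
        c p.1 p.2 = 2) = (univ.filter fun i => c i (μ i) = 2).image fun i => (i, μ i) := by
      ext ⟨i, j⟩
      rw [Finset.mem_filter, Finset.mem_image]
      constructor
      · rintro ⟨-, h1, h2⟩
        have h3 : j = μ i := (om_sw μ i j).mp h1
        subst h3
        exact ⟨i, Finset.mem_filter.mpr ⟨Finset.mem_univ _, h2⟩, rfl⟩
      · rintro ⟨i', hi', h3⟩
        rw [Prod.mk.injEq] at h3
        obtain ⟨rfl, rfl⟩ := h3
        exact ⟨Finset.mem_univ _, (om_sw μ i' _).mpr rfl, (Finset.mem_filter.mp hi').2⟩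
    rw [h4, Finset.card_image_of_injective]
    intro i i' hii
    exact (Prod.mk.inj hii).1

theorem pf_IH (_ : T_TI) : T_IH := pf_IH0

end

end Pool.Agent.H58.EMC
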