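import Pool.Agent.H72.EM.Basic

/-!
# Rows SM and HI of the board emc_modules: the states along the Hamiltonian cycle
-/

set_option autoImplicit false

open Finset Pool.Agent.H72.EM

namespace Pool.Agent.H58.EMC

theorem fin3a : ∀ x : Fin 3, x ≠ 0 → x ≠ 1 → x = 2 := by decide
theorem fin3b : ∀ x : Fin 3, x ≠ 0 → x ≠ 2 → x = 1 := by decide
theorem fin3c : ∀ x : Fin 3, x ≠ 1 → x ≠ 2 → x = 0 := by decide

section
variable {κ : ℕ} {c : Ix κ → Ix κ → ℕ} {ω : Hs κ → Fin 3}

theorem M2 (hM : IsM (ht c) ω) {h : Hs κ} (h2 : ω h = 2) : ω (nx h) = 1 := by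
  have h1 := hM h
  rw [h2] at h1
  exact h1.symm

theorem M1 (hM : IsM (ht c) ω) {h : Hs κ} (h1 : ω (nx h) = 1) : ω h = 2 := by
  have h2 := hM (nx h)
  rw [h1] at h2
  have h3 : ω (pv (nx h)) = 2 := h2.symm
  rw [pv_nx] at h3
  exact h3

theorem M0 (hM : IsM (ht c) ω) {h : Hs κ} (h0 : ω h = 0) : ω (sg c h) = 0 := by
  have h1 := hM h
  rw [h0] at h1
  exact h1.symm

theorem stepA (hM : IsM (ht c) ω) {h : Hs κ} (h2 : ω h = 2) : ω (nx h) = 1 := M2 hM h2

theorem stepB (hM : IsM (ht c) ω) {h : Hs κ} (h0 : ω (nx h) ≠ 0) (h2 : ω h ≠ 2) : ω (nx h) = 2 :=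
  fin3a _ h0 fun h1 => h2 (M1 hM h1)

/-- a block of closed vertices, first vertex not 2 -/
theorem blkB (hM : HM c ω) {b : Bk κ} (hb : b.2 ≠ none) (h : ω (b, none) ≠ 2) :
    ω (b, some .bz) = 2 := by
  have hc : ∀ s, ω (b, some s) ≠ 0 := fun s => hM.closed b s fun hh => hb hh.1
  have e1 : ω (b, some .ax) = 2 := stepB hM.isM (h := (b, none)) (hc .ax) h
  have e2 : ω (b, some .ay) = 1 := stepA hM.isM (h := (b, some .ax)) e1
  have e3 : ω (b, some .az) = 2 := stepB hM.isM (h := (b, some .ay)) (hc .az) (by rw [e2]; decide)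
  have e4 : ω (b, some .bv) = 1 := stepA hM.isM (h := (b, some .az)) e3
  have e5 : ω (b, some .bx) = 2 := stepB hM.isM (h := (b, some .bv)) (hc .bx) (by rw [e4]; decide)
  have e6 : ω (b, some .by') = 1 := stepA hM.isM (h := (b, some .bx)) e5
  exact stepB hM.isM (h := (b, some .by')) (hc .bz) (by rw [e6]; decide)

/-- the second part of a block, if `ax` is not 2 -/
theorem blkC (hM : HM c ω) {b : Bk κ} (h : ω (b, some .ax) ≠ 2) : ω (b, some .bz) = 1 := by
  have hc : ∀ s, s ≠ .ax → ω (b, some s) ≠ 0 := fun s hs => hM.closed b s fun hh => hs hh.2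
  have e2 : ω (b, some .ay) = 2 := stepB hM.isM (h := (b, some .ax)) (hc .ay (by decide)) h
  have e3 : ω (b, some .az) = 1 := stepA hM.isM (h := (b, some .ay)) e2
  have e4 : ω (b, some .bv) = 2 :=
    stepB hM.isM (h := (b, some .az)) (hc .bv (by decide)) (by rw [e3]; decide)
  have e5 : ω (b, some .bx) = 1 := stepA hM.isM (h := (b, some .bv)) e4
  have e6 : ω (b, some .by') = 2 :=
    stepB hM.isM (h := (b, some .bx)) (hc .by' (by decide)) (by rw [e5]; decide)
  exact stepA hM.isM (h := (b, some .by')) e6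

/-- non-link blocks -/
theorem blk (hM : HM c ω) {b : Bk κ} (hb : b.2 ≠ none) :
    ω (b, some .bz) = 2 ↔ ω (b, none) ≠ 2 := by
  constructor
  · intro h h2
    have e1 : ω (b, some .ax) = 1 := stepA hM.isM (h := (b, none)) h2
    have e2 := blkC hM (b := b) (by rw [e1]; decide)
    rw [e2] at h
    exact absurd h (by decide)
  · exact blkB hM hb

/-- link blocks: the last edge is not used -/
theorem link_end (hM : HM c ω) (i : Ix κ) : ω ((i, none), some .bz) ≠ 2 := by
  rw [blkC hM (by rw [hM.forced i]; decide)]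
  decide

/-- link blocks: the first vertex is entered -/
theorem link_start (hM : HM c ω) (i : Ix κ) : ω ((i, none), none) = 1 := by
  apply fin3b
  · intro h
    have h1 := M0 hM.isM h
    exact hM.closed (i, none) .bv (by rintro ⟨-, h⟩; exact absurd h (by decide)) h1
  · intro h
    have h1 : ω ((i, none), some .ax) = 1 := stepA hM.isM (h := ((i, none), none)) h
    rw [hM.forced i] at h1
    exact absurd h1 (by decide)

theorem pf_SM : T_SM := by
  classical
  intro κ c hc ω hM i
  -- the states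
  have P0 : ω ((i, some zr), none) ≠ 1 := by
    intro h
    exact link_end hM i (M1 hM.isM (h := ((i, none), some .bz)) h)
  have Pn : ∀ (n : ℕ) (h : n + 1 < 2 * κ + 2), ω ((i, some ⟨n + 1, h⟩), none) = 1 ↔
      ω ((i, some ⟨n, by omega⟩), some .bz) = 2 := by
    intro n h
    have e1 : nx ((i, some (⟨n, by omega⟩ : Ix κ)), some .bz) = ((i, some ⟨n + 1, h⟩), none) := by
      show (nxB (i, some (⟨n, by omega⟩ : Ix κ)), none) = _
      rw [nxB_some, if_neg (by
        show ¬ n = 2 * κ + 1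
        omega)]
      congr 3
      apply Fin.ext
      rw [up_val, if_neg (by
        show ¬ n = 2 * κ + 1
        omega)]
    rw [← e1]
    exact ⟨fun h => M1 hM.isM h, fun h => M2 hM.isM h⟩
  have Pl : ω ((i, some lst), some .bz) = 2 := by
    apply M1 hM.isM
    show ω (nxB (i, some lst), none) = 1
    rw [nxB_some, if_pos lst_val]
    exact link_start hM (up i)
  have hb : ∀ j : Ix κ, ω ((i, some j), some .bz) = 2 ↔ ω ((i, some j), none) ≠ 2 :=
    fun j => blk hM (b := (i, some j)) (Option.some_ne_none j)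
  have hex : ∃ n, ∃ h : n < 2 * κ + 2, ω ((i, some ⟨n, h⟩), some .bz) = 2 :=
    ⟨2 * κ + 1, by omega, Pl⟩
  obtain ⟨h0, hP0⟩ := Nat.find_spec hex
  have hmin : ∀ n (h : n < 2 * κ + 2), n < Nat.find hex →
      ω ((i, some ⟨n, h⟩), some .bz) ≠ 2 := fun n h hn h2 => Nat.find_min hex hn ⟨h, h2⟩
  -- the switch
  have hsw : ω ((i, some ⟨Nat.find hex, h0⟩), none) = 0 := by
    apply fin3c
    · intro h1
      rcases Nat.eq_zero_or_pos (Nat.find hex) with hz | hz
      · apply P0
        rw [← h1]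
        congr 3
        apply congrArg some
        exact Fin.ext (by rw [zr_val]; exact hz.symm)
      · obtain ⟨n, hn⟩ : ∃ n, Nat.find hex = n + 1 := ⟨Nat.find hex - 1, by omega⟩
        have h2 : n + 1 < 2 * κ + 2 := hn ▸ h0
        have h3 : (⟨Nat.find hex, h0⟩ : Ix κ) = ⟨n + 1, h2⟩ := Fin.ext hn
        rw [h3] at h1
        exact hmin n (by omega) (by omega) ((Pn n h2).mp h1)
    · exact (hb _).mp hP0
  refine ⟨⟨Nat.find hex, h0⟩, ?_, fun j' => ⟨fun h => ?_, fun h => by rw [h]; exact hsw⟩⟩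
  · intro hc0
    have h1 := M0 hM.isM hsw
    have h2 : sg c ((i, some ⟨Nat.find hex, h0⟩), none) =
        ((⟨Nat.find hex, h0⟩, some i), some .bv) := by
      show (if c i ⟨Nat.find hex, h0⟩ = 0 then _ else _) = _
      rw [if_pos hc0]
    rw [h2] at h1
    exact hM.closed _ .bv (by rintro ⟨-, h⟩; exact absurd h (by decide)) h1
  · -- uniqueness
    have mono : ∀ d (hd : Nat.find hex + d < 2 * κ + 2),
        ω ((i, some ⟨Nat.find hex + d, hd⟩), some .bz) = 2 ∧
          (0 < d → ω ((i, some ⟨Nat.find hex + d, hd⟩), none) = 1) := by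
      intro d
      induction d with
      | zero => exact fun hd => ⟨hP0, fun h => absurd h (lt_irrefl 0)⟩
      | succ d ih =>
        intro hd
        have h1 := (ih (by omega)).1
        have h2 : ω ((i, some ⟨Nat.find hex + d + 1, hd⟩), none) = 1 :=
          (Pn (Nat.find hex + d) hd).mpr h1
        exact ⟨(hb _).mpr (by
          show ω ((i, some ⟨Nat.find hex + d + 1, hd⟩), none) ≠ 2
          rw [h2]
          decide), fun _ => h2⟩
    apply Fin.ext
    show j'.val = Nat.find hex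
    rcases lt_trichotomy j'.val (Nat.find hex) with h1 | h1 | h1
    · exfalso
      have h2 := hmin j'.val j'.2 h1
      have h3 := (hb j').not.mp h2
      rw [not_not, h] at h3
      exact absurd h3 (by decide)
    · exact h1
    · exfalso
      obtain ⟨d, hd⟩ : ∃ d, j'.val = Nat.find hex + d := ⟨j'.val - Nat.find hex, by omega⟩
      have h2 : Nat.find hex + d < 2 * κ + 2 := hd ▸ j'.2
      have h3 : j' = ⟨Nat.find hex + d, h2⟩ := Fin.ext hd
      have h4 := (mono d h2).2 (by omega)
      rw [← h3, h] at h4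
      exact absurd h4 (by decide)

theorem pf_HI (h : T_SM) : T_HI := by
  classical
  intro κ k c hc ω hM hk
  choose μ hμ1 hμ2 using fun i => h κ c hc ω hM i
  have hμμ : ∀ i, μ (μ i) = i := by
    intro i
    have h1 : ω ((i, some (μ i)), none) = 0 := (hμ2 i (μ i)).mpr rfl
    have h2 := M0 hM.isM h1
    have h3 : sg c ((i, some (μ i)), none) = ((μ i, some i), none) := by
      show (if c i (μ i) = 0 then _ else _) = _
      rw [if_neg (hμ1 i)]
    rw [h3] at h2
    exact ((hμ2 (μ i) i).mp h2).symm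
  refine ⟨μ, hμμ, hμ1, ?_⟩
  rw [← hk]
  unfold hcnt
  have h4 : (univ.filter fun p : Ix κ × Ix κ => ω ((p.1, some p.2), none) = 0 ∧ c p.1 p.2 = 2) =
      (univ.filter fun i => c i (μ i) = 2).image fun i => (i, μ i) := by
    ext ⟨i, j⟩
    rw [Finset.mem_filter, Finset.mem_image]
    constructor
    · rintro ⟨-, h1, h2⟩
      have h3 : j = μ i := (hμ2 i j).mp h1
      subst h3
      exact ⟨i, Finset.mem_filter.mpr ⟨Finset.mem_univ _, h2⟩, rfl⟩
    · rintro ⟨i', hi', h3⟩
      rw [Prod.mk.injEq] at h3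
      obtain ⟨rfl, rfl⟩ := h3
      exact ⟨Finset.mem_univ _, (hμ2 i' _).mpr rfl, (Finset.mem_filter.mp hi').2⟩
  rw [h4, Finset.card_image_of_injective]
  intro i i' hii
  exact (Prod.mk.inj hii).1

end

end Pool.Agent.H58.EMC
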